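import Pool.Agent.Helper770.Cube
import Pool.Agent.Helper770.Exist

set_option autoImplicit false

namespace Pool.Agent.Results.MP_e9773e_co.HypercubeTheta

open Finset Pool.Agent.Helper770.Crossing Pool.Agent.Helper770.Sep
  Pool.Agent.Helper770.EdgeSep Pool.Agent.Helper770.Levels Pool.Agent.Helper770.Cube
  Pool.Agent.Helper770.Exist

/-- A drawn subgraph of the hypercube with few crossings has few edges. -/
lemma few (k j : ℕ) (hk : 1 ≤ k) (hj : j ≤ k) (G : SimpleGraph (Fin k → Bool))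
    (hG : G ≤ hypercube k) (D : Drawing G) (hfin : D.crossings.Finite)
    (hW : (k ^ 2 * 2 ^ k + 4 * D.crossings.ncard) * 2 ^ j ≤ 2 ^ k * 2 ^ k) :
    2 * (edges G).card ≤ 160 * 2 ^ k + 2 ^ k * (k - j) := by
  classical
  have hV : Fintype.card (Fin k → Bool) = 2 ^ k := by simp
  obtain ⟨F, hF, hT, hFc⟩ := dyadic D hfin k k hk (dg_le k G hG) hV j hj
  have h1 : F.card ≤ 80 * 2 ^ k := by
    have : F.card ^ 2 ≤ (80 * 2 ^ k) ^ 2 := by
      calc F.card ^ 2 ≤ 6400 * (k ^ 2 * 2 ^ k + 4 * D.crossings.ncard) * 2 ^ j := hFc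
        _ = 6400 * ((k ^ 2 * 2 ^ k + 4 * D.crossings.ncard) * 2 ^ j) := by ring
        _ ≤ 6400 * (2 ^ k * 2 ^ k) := Nat.mul_le_mul_left _ hW
        _ = (80 * 2 ^ k) ^ 2 := by ring
    exact (Nat.pow_le_pow_iff_left (by norm_num)).mp this
  have h2 := few_edges k (k - j) (G.deleteEdges (F : Set (Sym2 (Fin k → Bool))))
    ((SimpleGraph.deleteEdges_le _).trans hG) hT
  have h3 : edges G ⊆ F ∪ edges (G.deleteEdges (F : Set (Sym2 (Fin k → Bool)))) := by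
    intro e he
    by_cases h : e ∈ F
    · exact mem_union_left _ h
    · apply mem_union_right
      rw [mem_edges] at he ⊢
      rw [SimpleGraph.edgeSet_deleteEdges]
      exact ⟨he, by exact_mod_cast h⟩
  have h4 := (card_le_card h3).trans (card_union_le _ _)
  omega

/-- The biplanar crossing number of the `k`-dimensional hypercube is at least a positive constant
times `2^(3k/2)` for all large `k`. -/
theorem result : ∃ c : ℝ, 0 < c ∧ ∃ K : ℕ, ∀ k : ℕ, K ≤ k →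
    c * (2 : ℝ) ^ (3 * (k : ℝ) / 2) ≤ (biplanarCrossingNumber (hypercube k) : ℝ) := by
  classical
  refine ⟨1 / 2 ^ 164, by positivity, ?_⟩
  have hs1 : (1 : ℝ) < Real.sqrt 2 := by
    rw [Real.lt_sqrt (by norm_num)]; norm_num
  have hlim := tendsto_pow_const_div_const_pow_of_one_lt 2 hs1
  have hev := (hlim.eventually (gt_mem_nhds (show (0 : ℝ) < 1 / 2 ^ 162 by positivity)))
  obtain ⟨K₀, hK₀⟩ := Filter.eventually_atTop.mp hev
  refine ⟨max K₀ 400, fun k hk => ?_⟩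
  have hk0 : K₀ ≤ k := le_trans (le_max_left _ _) hk
  have hk4 : 400 ≤ k := le_trans (le_max_right _ _) hk
  obtain ⟨G₁, G₂, hG, -, hbi⟩ := biplanar_attained (hypercube k)
  obtain ⟨D₁, hD₁, hX₁⟩ := crossingNumber_attained G₁
  obtain ⟨D₂, hD₂, hX₂⟩ := crossingNumber_attained G₂
  have hG₁ : G₁ ≤ hypercube k := hG ▸ le_sup_left
  have hG₂ : G₂ ≤ hypercube k := hG ▸ le_sup_right
  set j := k / 2 + 161 with hj
  have hjk : j ≤ k := by omega
  -- one of the two drawings has many crossings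
  have key : ∃ X : ℕ, X ≤ biplanarCrossingNumber (hypercube k) ∧
      2 ^ k * 2 ^ k < (k ^ 2 * 2 ^ k + 4 * X) * 2 ^ j := by
    by_contra hcon
    push Not at hcon
    have e1 := hcon D₁.crossings.ncard (by rw [hX₁, hbi]; exact Nat.le_add_right _ _)
    have e2 := hcon D₂.crossings.ncard (by rw [hX₂, hbi]; exact Nat.le_add_left _ _)
    have f1 := few k j (by omega) hjk G₁ hG₁ D₁ hD₁ e1
    have f2 := few k j (by omega) hjk G₂ hG₂ D₂ hD₂ e2
    have f3 := edges_card k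
    have f4 : edges (hypercube k) ⊆ edges G₁ ∪ edges G₂ := by
      intro e he
      rw [mem_edges, ← hG, SimpleGraph.edgeSet_sup] at he
      rw [mem_union, mem_edges, mem_edges]
      exact he
    have f5 := (card_le_card f4).trans (card_union_le _ _)
    have f6 : 2 ^ k * k ≤ 2 ^ k * (320 + 2 * (k - j)) := by
      rw [mul_add]
      have : 2 ^ k * (2 * (k - j)) = 2 * (2 ^ k * (k - j)) := by ring
      rw [this]
      omega
    have f7 : k ≤ 320 + 2 * (k - j) := Nat.le_of_mul_le_mul_left f6 (by positivity)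
    omega
  obtain ⟨X, hX, hlt⟩ := key
  -- real computation with `a = √2 ^ k`
  set a : ℝ := Real.sqrt 2 ^ k with ha
  have hapos : 0 < a := by positivity
  have hsq : Real.sqrt 2 * Real.sqrt 2 = 2 := Real.mul_self_sqrt (by norm_num)
  have ha2 : a ^ 2 = (2 : ℝ) ^ k := by
    rw [ha, ← pow_mul, mul_comm, pow_mul, sq, hsq]
  have ha3 : (2 : ℝ) ^ (3 * (k : ℝ) / 2) = a ^ 3 := by
    have h1 : (2 : ℝ) ^ (3 * (k : ℝ) / 2) = ((2 : ℝ) ^ ((1 : ℝ) / 2)) ^ (3 * k) := by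
      rw [← Real.rpow_natCast, ← Real.rpow_mul (by norm_num)]
      congr 1; push_cast; ring
    rw [h1, ← Real.sqrt_eq_rpow, ha, ← pow_mul]
    congr 1; ring
  have hhalf : (2 : ℝ) ^ (k / 2) ≤ a := by
    calc (2 : ℝ) ^ (k / 2) = (Real.sqrt 2) ^ (2 * (k / 2)) := by rw [pow_mul, sq, hsq]
      _ ≤ Real.sqrt 2 ^ k := pow_le_pow_right₀ hs1.le (by omega)
  have hcast : ∀ j : ℕ, 2 ^ k * 2 ^ k < (k ^ 2 * 2 ^ k + 4 * X) * 2 ^ j →
      (2 : ℝ) ^ k * 2 ^ k < ((k : ℝ) ^ 2 * 2 ^ k + 4 * X) * 2 ^ j := by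
    intro j h
    exact_mod_cast h
  have hlt' : (2 : ℝ) ^ k * 2 ^ k < ((k : ℝ) ^ 2 * 2 ^ k + 4 * X) * (2 ^ (k / 2) * 2 ^ 161) := by
    have := hcast j hlt
    rwa [hj, pow_add] at this
  clear hlt hcast
  have hWpos : 0 ≤ (k : ℝ) ^ 2 * 2 ^ k + 4 * X := by positivity
  have h1 : a ^ 2 * a ^ 2 < ((k : ℝ) ^ 2 * a ^ 2 + 4 * X) * (a * 2 ^ 161) := by
    rw [← ha2] at hlt' hWpos
    refine lt_of_lt_of_le hlt' ?_
    apply mul_le_mul_of_nonneg_left _ hWpos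
    exact mul_le_mul_of_nonneg_right hhalf (by positivity)
  have h2 : a ^ 3 < ((k : ℝ) ^ 2 * a ^ 2 + 4 * X) * 2 ^ 161 := by
    have : a * a ^ 3 < a * (((k : ℝ) ^ 2 * a ^ 2 + 4 * X) * 2 ^ 161) := by
      calc a * a ^ 3 = a ^ 2 * a ^ 2 := by ring
        _ < ((k : ℝ) ^ 2 * a ^ 2 + 4 * X) * (a * 2 ^ 161) := h1
        _ = _ := by ring
    exact lt_of_mul_lt_mul_left this hapos.le
  have h3 : (k : ℝ) ^ 2 ≤ a * (1 / 2 ^ 162) := by
    have := (hK₀ k hk0).le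
    rw [div_le_iff₀ hapos] at this
    linarith
  have h4 : (k : ℝ) ^ 2 * a ^ 2 ≤ a ^ 3 * (1 / 2 ^ 162) := by
    calc (k : ℝ) ^ 2 * a ^ 2 ≤ (a * (1 / 2 ^ 162)) * a ^ 2 :=
          mul_le_mul_of_nonneg_right h3 (by positivity)
      _ = _ := by ring
  have h5 : a ^ 3 * (1 / 2 ^ 164) ≤ X := by
    have h6 : ((k : ℝ) ^ 2 * a ^ 2 + 4 * X) * 2 ^ 161 ≤ a ^ 3 * (1 / 2) + 4 * X * 2 ^ 161 := by
      calc ((k : ℝ) ^ 2 * a ^ 2 + 4 * X) * 2 ^ 161
          ≤ (a ^ 3 * (1 / 2 ^ 162) + 4 * X) * 2 ^ 161 := by gcongr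
        _ = a ^ 3 * (1 / 2) + 4 * X * 2 ^ 161 := by ring
    have h7 : a ^ 3 * (1 / 2) < 4 * X * 2 ^ 161 := by linarith
    have h8 : a ^ 3 * (1 / 2 ^ 164) = (a ^ 3 * (1 / 2)) / 2 ^ 163 := by ring
    rw [h8, div_le_iff₀ (by positivity)]
    calc a ^ 3 * (1 / 2) ≤ 4 * X * 2 ^ 161 := h7.le
      _ = X * 2 ^ 163 := by ring
  rw [ha3, mul_comm]
  exact h5.trans (by exact_mod_cast hX)

end Pool.Agent.Results.MP_e9773e_co.HypercubeTheta
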